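import Mathlib
import Pool.Agent.Q35.MM.Stm

/-!
Project SM (MP_18ea5f_nt): the weak Manin conjecture for ALL smooth complete intersections of `k`
divisors of type `(1, ..., 1)` in products of projective spaces of large dimension, over all number
fields.

`c t` are the coefficients of the `k` multilinear forms. `Opn F G x`: some polynomial of the finite
set `G` does not vanish at `x` (an open condition on the tuples of vectors with coordinates in the
field `F`). A tower of open conditions is defined by descending induction on the set `I` of the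
arguments which are inserted: `Twr`.
-/

set_option autoImplicit false

namespace Pool.Agent.Q35.SM

open Finset Function MvPolynomial
open Pool.Agent.Q35.MM (bx dg Pts fuj)

/-- The coefficients of a multilinear form. -/
abbrev Cof (K : Type) {ι : Type} (n : ι → ℕ) : Type := (∀ i : ι, Fin (n i + 1)) → K

/-- Tuples of vectors. -/
abbrev Vs (A : Type) {ι : Type} (n : ι → ℕ) : Type := ∀ i : ι, Fin (n i + 1) → A

/-- The variables. -/
abbrev Var {ι : Type} (n : ι → ℕ) : Type := (i : ι) × Fin (n i + 1)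

/-- Polynomials in the coordinates of all vectors. -/
abbrev Pol (K : Type) [Field K] {ι : Type} (n : ι → ℕ) : Type := MvPolynomial (Var n) K

section

variable {K : Type} [Field K] {ι : Type} [Fintype ι] [DecidableEq ι] {n : ι → ℕ}

/-- The value of the multilinear form with the coefficients `c`. -/
def ev (A : Type) [CommRing A] [Algebra K A] (c : Cof K n) (x : Vs A n) : A :=
  ∑ a, algebraMap K A (c a) * ∏ i, x i (a i)

/-- The value of a polynomial. -/
noncomputable def pv (A : Type) [CommRing A] [Algebra K A] (g : Pol K n) (x : Vs A n) : A :=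
  aeval (fun v : Var n => x v.1 v.2) g

/-- The polynomial is homogeneous in the coordinates of each vector. -/
def MH (g : Pol K n) : Prop := ∃ δ : ι → ℕ, ∀ m ∈ g.support, ∀ i, ∑ a, m ⟨i, a⟩ = δ i

/-- Some polynomial in `G` does not vanish at `x`. -/
def Opn (A : Type) [CommRing A] [Algebra K A] (G : Finset (Pol K n)) (x : Vs A n) : Prop :=
  ∃ g ∈ G, pv A g x ≠ 0

/-- There is a linear subspace of dimension `r` (the image of the matrix `M`), rational over `K`, in
the space of the `i`-th vectors such that the condition `Opn G` is true if one replaces the `i`-th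
vector of `x` by any nonzero vector of the subspace over the algebraic closure: the set where all
polynomials in `G` vanish has codimension at least `r`, as a set in the space of the `i`-th
vector. -/
def Cut (F : Type) [Field F] [Algebra K F] (r : ℕ) (i : ι) (G : Finset (Pol K n)) (x : Vs F n) :
    Prop :=
  ∃ M : Matrix (Fin (n i + 1)) (Fin r) K, ∀ z : Fin r → AlgebraicClosure F, z ≠ 0 →
    Opn (AlgebraicClosure F) G
      (update (fun l a => algebraMap F (AlgebraicClosure F) (x l a)) i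
        (fun a => ∑ b, algebraMap K (AlgebraicClosure F) (M a b) * z b))

/-- A tower of open conditions `G I` for the sets `I ≠ univ` of arguments, for the forms with the
coefficients `c`. -/
structure Twr (k r : ℕ) (c : Fin k → Cof K n) (G : Finset ι → Finset (Pol K n)) : Prop where
  /-- the polynomials are homogeneous in each vector -/
  hom : ∀ I, ∀ g ∈ G I, MH g
  /-- `G I` only depends on the vectors with index in `I` -/
  dep : ∀ I, ∀ g ∈ G I, ∀ v ∈ g.vars, v.1 ∈ I
  /-- if one vector is missing: the `k` linear forms in this vector are linearly independent -/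
  base : ∀ j, ∀ (F : Type) [Field F] [Algebra K F] (x : Vs F n),
    Opn F (G (univ.erase j)) x ↔
      LinearIndependent F fun (t : Fin k) (a : Fin (n j + 1)) =>
        ev F (c t) (update x j (Pi.single a 1))
  /-- if at least two vectors are missing -/
  step : ∀ I : Finset ι, I.card + 2 ≤ Fintype.card ι → ∀ (F : Type) [Field F] [Algebra K F]
    (x : Vs F n), Opn F (G I) x ↔ ∀ i, i ∉ I → Cut F r i (G (insert i I)) x

/-- The open set `U`. -/
def UU {k : ℕ} (c : Fin k → Cof K n) (G : Finset ι → Finset (Pol K n)) (P : Vs K n) : Prop :=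
  (∀ t, ev K (c t) P = 0) ∧ ∀ I : Finset ι, I ≠ univ → Opn K (G I) P

/-- The complete intersection is smooth (of codimension `k`): at each point the gradients are
linearly independent. -/
def Smth {k : ℕ} (c : Fin k → Cof K n) : Prop :=
  ∀ x : Vs (AlgebraicClosure K) n, (∀ i, x i ≠ 0) → (∀ t, ev (AlgebraicClosure K) (c t) x = 0) →
    ∀ μ : Fin k → AlgebraicClosure K, μ ≠ 0 →
      ∃ i, ∃ v : Fin (n i + 1) → AlgebraicClosure K,
        ∑ t, μ t * ev (AlgebraicClosure K) (c t) (update x i v) ≠ 0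

end

section

variable {K : Type} [Field K] [NumberField K] {ι : Type} [Fintype ι] [DecidableEq ι] {n : ι → ℕ}

open Classical in
/-- The points of `U` in the boxes. -/
noncomputable def FF {k : ℕ} (c : Fin k → Cof K n) (G : Finset ι → Finset (Pol K n)) (b : ι → ℕ) :
    Finset (Vs K n) :=
  (Fintype.piFinset fun l => bx K (n l + 1) (b l)).filter fun P => UU c G P

end

/-! ## The lemmas -/

/-- SM-A: elimination. -/
def S_A : Prop :=
  ∀ (K : Type) [Field K] [CharZero K] (ι : Type) [Fintype ι] [DecidableEq ι] (n : ι → ℕ) (r : ℕ)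
    (i : ι) (G : Finset (Pol K n)), 1 ≤ r → (∀ g ∈ G, MH g) →
    ∃ G' : Finset (Pol K n), (∀ g ∈ G', MH g) ∧
      (∀ g ∈ G', ∀ v ∈ g.vars, v.1 ≠ i ∧ ∃ h ∈ G, v ∈ h.vars) ∧
      ∀ (F : Type) [Field F] [Algebra K F] (x : Vs F n), Opn F G' x ↔ Cut F r i G x

/-- SM-T: existence of towers. -/
def S_T : Prop :=
  ∀ (K : Type) [Field K] [CharZero K] (ι : Type) [Fintype ι] [DecidableEq ι] (n : ι → ℕ) (k r : ℕ)
    (c : Fin k → Cof K n), 2 ≤ Fintype.card ι → 1 ≤ r → ∃ G : Finset ι → Finset (Pol K n),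
    Twr k r c G

/-- SM-C: the uniform bound for the number of points in boxes at which the open condition fails. -/
def S_C : Prop :=
  ∀ (K : Type) [Field K] [NumberField K] (ι : Type) [Fintype ι] [DecidableEq ι] (n : ι → ℕ) (r : ℕ)
    (i : ι) (G : Finset (Pol K n)), 1 ≤ r → r ≤ n i + 1 → (∀ g ∈ G, MH g) →
    ∃ C : ℝ, 0 ≤ C ∧ ∀ x : Vs K n, Cut K r i G x → ∀ ρ : ℕ, 1 ≤ ρ →
      ∀ [DecidablePred fun y : Fin (n i + 1) → K => ¬ Opn K G (update x i y)],
      (((bx K (n i + 1) ρ).filter fun y => ¬ Opn K G (update x i y)).card : ℝ) ≤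
        C * (ρ : ℝ) ^ (dg K * (n i + 1 - r))

/-- SM-B: a cone which meets all rational linear subspaces of dimension `r` has a point of
transcendence degree at least `N + 1 - r`. -/
def S_B : Prop :=
  ∀ (K : Type) [Field K] [CharZero K] (F : Type) [Field F] [Algebra K F] (N r : ℕ), r ≤ N →
    ∀ G : Finset (MvPolynomial (Fin N) F), (∀ g ∈ G, ∃ e, g.IsHomogeneous e) →
    (∀ M : Matrix (Fin N) (Fin r) K, ∃ z : Fin r → AlgebraicClosure F, z ≠ 0 ∧
      ∀ g ∈ G, aeval (fun a => ∑ b, algebraMap K (AlgebraicClosure F) (M a b) * z b) g = 0) →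
    ∃ (F' : Type) (_ : Field F') (_ : Algebra F F') (x : Fin N → F') (B : Finset (Fin N)),
      (∀ g ∈ G, aeval x g = 0) ∧ N + 1 ≤ B.card + r ∧ AlgebraicIndependent F fun b : B => x b

/-- SM-D: going down the tower. -/
def S_D : Prop :=
  ∀ (K : Type) [Field K] [CharZero K] (ι : Type) [Fintype ι] [DecidableEq ι] (n : ι → ℕ) (k r : ℕ)
    (c : Fin k → Cof K n) (G : Finset ι → Finset (Pol K n)), Twr k r c G →
    2 ≤ Fintype.card ι → 1 ≤ r → (∀ i, r ≤ n i + 1) → (∀ x : Vs K n, ¬ Opn K (G ∅) x) →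
    ∃ (j : ι) (F : Type) (_ : Field F) (_ : Algebra K F) (x : Vs F n) (μ : Fin k → F)
      (B : Finset (Var n)), μ ≠ 0 ∧
      (∀ y : Fin (n j + 1) → F, ∑ t, μ t * ev F (c t) (update x j y) = 0) ∧
      (∀ v ∈ B, v.1 ≠ j) ∧ (∀ l, l ≠ j → n l + 2 ≤ (B.filter fun v => v.1 = l).card + r) ∧
      AlgebraicIndependent K fun v : B => x v.1.1 v.1.2

/-- SM-E: singular points over extension fields, by derivations. -/
def S_E : Prop :=
  ∀ (K : Type) [Field K] [CharZero K] (ι : Type) [Fintype ι] [DecidableEq ι] (n : ι → ℕ) (k r : ℕ)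
    (c : Fin k → Cof K n) (j : ι) (F : Type) [Field F] [Algebra K F] (x : Vs F n) (μ : Fin k → F)
    (B : Finset (Var n)), 1 ≤ r → (∀ i, r ≤ n i + 1) → μ ≠ 0 →
    (∀ y : Fin (n j + 1) → F, ∑ t, μ t * ev F (c t) (update x j y) = 0) →
    (∀ v ∈ B, v.1 ≠ j) → (∀ l, l ≠ j → n l + 2 ≤ (B.filter fun v => v.1 = l).card + r) →
    (AlgebraicIndependent K fun v : B => x v.1.1 v.1.2) →
    k + (Fintype.card ι - 1) * (r - 1) ≤ n j + 1 →
    ∃ z : Vs F n, (∀ i, z i ≠ 0) ∧ (∀ t, ev F (c t) z = 0) ∧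
      ∀ i, ∀ v : Fin (n i + 1) → F, ∑ t, μ t * ev F (c t) (update z i v) = 0

/-- SM-F: specialisation of singular points. -/
def S_F : Prop :=
  ∀ (K : Type) [Field K] [CharZero K] (ι : Type) [Fintype ι] [DecidableEq ι] (n : ι → ℕ) (k : ℕ)
    (c : Fin k → Cof K n) (F : Type) [Field F] [Algebra K F] (z : Vs F n) (μ : Fin k → F),
    μ ≠ 0 → (∀ i, z i ≠ 0) → (∀ t, ev F (c t) z = 0) →
    (∀ i, ∀ v : Fin (n i + 1) → F, ∑ t, μ t * ev F (c t) (update z i v) = 0) → ¬ Smth c

/-- SM-N: there are points. -/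
def S_N : Prop :=
  ∀ (K : Type) [Field K] [NumberField K] (ι : Type) [Fintype ι] [DecidableEq ι] (n : ι → ℕ) (k : ℕ)
    (c : Fin k → Cof K n) (G : Finset ι → Finset (Pol K n)), 2 ≤ Fintype.card ι → 1 ≤ k →
    (∀ i, k * Fintype.card ι ≤ n i + 1) → Twr k (k * Fintype.card ι) c G →
    (∃ x : Vs K n, Opn K (G ∅) x) → ∃ P : Vs K n, UU c G P

/-- SM-G: the descent step. -/
def S_G : Prop :=
  ∀ (K : Type) [Field K] [NumberField K] (ι : Type) [Fintype ι] [DecidableEq ι] (n : ι → ℕ) (k : ℕ)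
    (c : Fin k → Cof K n) (G : Finset ι → Finset (Pol K n)), 2 ≤ Fintype.card ι → 1 ≤ k →
    (∀ i, k * Fintype.card ι ≤ n i + 1) → Twr k (k * Fintype.card ι) c G →
    ∃ D : ℝ, 0 ≤ D ∧ ∀ (b : ι → ℕ) (i : ι) (ρ : ℕ), (∀ l, 1 ≤ b l) → 1 ≤ ρ → ρ ≤ b i →
      ((FF c G b).card : ℝ) ≤ (3 * (b i : ℝ) / ρ) ^ (dg K * (n i + 1 - k)) *
        ((FF c G (update b i ρ)).card +
          D * (ρ : ℝ) ^ (dg K * (n i + 1 - k * Fintype.card ι)) *
            ∏ l ∈ univ.erase i, (b l : ℝ) ^ (dg K * (n l + 1)))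

open Classical in
/-- SM-H: from boxes to heights, for any condition which is invariant under scaling. -/
def S_H : Prop :=
  ∀ (K : Type) [Field K] [NumberField K] (ι : Type) [Fintype ι] [DecidableEq ι] (n : ι → ℕ) (k : ℕ)
    (U : Vs K n → Prop), 2 ≤ Fintype.card ι → 1 ≤ k → (∀ i, k ≤ n i) →
    (∀ a : ι → K, (∀ i, a i ≠ 0) → ∀ P, U P → U fun i => a i • P i) →
    (∀ δ : ℝ, 0 < δ → ∃ C : ℝ, 0 ≤ C ∧ ∀ b : ι → ℕ, (∀ l, 1 ≤ b l) →
      ((((Fintype.piFinset fun l => bx K (n l + 1) (b l)).filter fun P => U P).card : ℕ) : ℝ) ≤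
        C * (∏ l, (b l : ℝ) ^ (dg K * (n l + 1 - k))) * (∏ l, (b l : ℝ)) ^ δ) →
    ∀ l : ι → ℝ, (∀ i, 0 < l i) → ∀ ε : ℝ, 0 < ε → ∃ C : ℝ, ∀ T : ℝ, 1 ≤ T →
      {x : Pts K n | U (fun i => (x i).rep) ∧ ∏ i, (x i).mulHeight ^ l i ≤ T}.Finite ∧
      (({x : Pts K n | U (fun i => (x i).rep) ∧ ∏ i, (x i).mulHeight ^ l i ≤ T}.ncard : ℕ) : ℝ) ≤
        C * T ^ (fuj n k l + ε)

end Pool.Agent.Q35.SM
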