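import Mathlib
import Pool.Agent.Q35.SM.Stm

set_option autoImplicit false

namespace Pool.Agent.Q35.SM

open Finset Function MvPolynomial

variable {K : Type} [Field K] {ι : Type} [Fintype ι] [DecidableEq ι] {n : ι → ℕ}

theorem MH_one : MH (1 : Pol K n) := by
  refine ⟨fun _ => 0, fun m hm i => ?_⟩
  have h1 : m = 0 := by
    by_contra h
    rw [mem_support_iff, coeff_one, if_neg (Ne.symm h)] at hm
    exact hm rfl
  subst h1
  simp

theorem MH_mul {g h : Pol K n} (hg : MH g) (hh : MH h) : MH (g * h) := by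
  classical
  obtain ⟨δ, hδ⟩ := hg
  obtain ⟨ε, hε⟩ := hh
  refine ⟨fun i => δ i + ε i, fun m hm i => ?_⟩
  have h1 := MvPolynomial.support_mul g h hm
  rw [Finset.mem_add] at h1
  obtain ⟨a, ha, b, hb, rfl⟩ := h1
  show ∑ a_1, (a + b) ⟨i, a_1⟩ = δ i + ε i
  rw [← hδ a ha i, ← hε b hb i, ← Finset.sum_add_distrib]
  rfl

theorem MH_prod {α : Type} (s : Finset α) (g : α → Pol K n) (h : ∀ a ∈ s, MH (g a)) :
    MH (∏ a ∈ s, g a) := by
  classical
  induction s using Finset.induction_on with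
  | empty => simpa using MH_one
  | insert a s ha ih =>
    rw [Finset.prod_insert ha]
    exact MH_mul (h a (Finset.mem_insert_self _ _))
      (ih fun b hb => h b (Finset.mem_insert_of_mem hb))

theorem pv_smul {g : Pol K n} {δ : ι → ℕ} (hδ : ∀ m ∈ g.support, ∀ i, ∑ a, m ⟨i, a⟩ = δ i)
    (a : ι → K) (P : Vs K n) : pv K g (fun i => a i • P i) = (∏ i, a i ^ δ i) * pv K g P := by
  unfold pv
  rw [aeval_def, eval₂_eq', aeval_def, eval₂_eq', Finset.mul_sum]
  refine Finset.sum_congr rfl fun m hm => ?_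
  have h1 : ∏ v : Var n, (a v.1 • P v.1) v.2 ^ m v =
      (∏ i, a i ^ δ i) * ∏ v : Var n, P v.1 v.2 ^ m v := by
    have h2 : ∀ v : Var n, (a v.1 • P v.1) v.2 ^ m v = a v.1 ^ m v * P v.1 v.2 ^ m v := by
      intro v
      rw [Pi.smul_apply, smul_eq_mul, mul_pow]
    rw [Finset.prod_congr rfl fun v _ => h2 v, Finset.prod_mul_distrib]
    congr 1
    rw [← Finset.univ_sigma_univ, Finset.prod_sigma]
    refine Finset.prod_congr rfl fun i _ => ?_
    show ∏ s, a i ^ m ⟨i, s⟩ = a i ^ δ i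
    rw [Finset.prod_pow_eq_pow_sum, hδ m hm i]
  rw [h1]
  ring

theorem ev_smul (c : Cof K n) (a : ι → K) (P : Vs K n) :
    ev K c (fun i => a i • P i) = (∏ i, a i) * ev K c P := by
  unfold ev
  rw [Finset.mul_sum]
  refine Finset.sum_congr rfl fun b _ => ?_
  simp only [Pi.smul_apply, smul_eq_mul]
  rw [Finset.prod_mul_distrib]
  ring

theorem UU_smul {k : ℕ} (c : Fin k → Cof K n) (G : Finset ι → Finset (Pol K n))
    (hG : ∀ I, ∀ g ∈ G I, MH g) (a : ι → K) (ha : ∀ i, a i ≠ 0) (P : Vs K n) (h : UU c G P) :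
    UU c G (fun i => a i • P i) := by
  refine ⟨fun t => ?_, fun I hI => ?_⟩
  · rw [ev_smul, h.1 t, mul_zero]
  · obtain ⟨g, hg, h1⟩ := h.2 I hI
    obtain ⟨δ, hδ⟩ := hG I g hg
    refine ⟨g, hg, ?_⟩
    rw [pv_smul hδ]
    exact mul_ne_zero (Finset.prod_ne_zero_iff.mpr fun i _ => pow_ne_zero _ (ha i)) h1

end Pool.Agent.Q35.SM
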