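import Mathlib
import Pool.Agent.Q35.SM.Stm

set_option autoImplicit false

namespace Pool.Agent.Q35.SM

open Finset Function
open Pool.Agent.Q35.MM (bx dg mem_bx)

/-- The box count. -/
theorem fb (hAD : Pool.Agent.Q35.MM.S_AD) (hG : S_G) (K : Type) [Field K] [NumberField K] (ι : Type)
    [Fintype ι] [DecidableEq ι] (n : ι → ℕ) (k : ℕ) (c : Fin k → Cof K n)
    (G : Finset ι → Finset (Pol K n)) (hs : 2 ≤ Fintype.card ι) (hk : 1 ≤ k)
    (hn : ∀ i, k * Fintype.card ι ≤ n i + 1) (hT : Twr k (k * Fintype.card ι) c G) :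
    ∀ δ : ℝ, 0 < δ → ∃ C : ℝ, 0 ≤ C ∧ ∀ b : ι → ℕ, (∀ l, 1 ≤ b l) →
      ((FF c G b).card : ℝ) ≤
        C * (∏ l, (b l : ℝ) ^ (dg K * (n l + 1 - k))) * (∏ l, (b l : ℝ)) ^ δ := by
  classical
  intro δ hδ
  set δ' := δ / 2 with hδ'
  have hδ0 : 0 < δ' := by positivity
  have hks : k * (Fintype.card ι - 1) + k = k * Fintype.card ι := by
    obtain ⟨s, hs'⟩ : ∃ s, Fintype.card ι = s + 1 := ⟨Fintype.card ι - 1, by omega⟩
    rw [hs']
    simp only [Nat.add_sub_cancel]
    ring
  have hkn : ∀ i, k ≤ n i + 1 := by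
    intro i
    have := hn i
    omega
  obtain ⟨D, hD, hF⟩ := hG K ι n k c G hs hk hn hT
  set d := dg K with hd
  set m := d * (∑ i, n i + k * Fintype.card ι + k + 1) with hm
  set Φ : (ι → ℕ) → ℝ := fun b => ∏ l, (b l : ℝ) ^ (d * (n l + 1 - k)) with hΦ
  have hS : (univ : Finset ι).Nonempty := by
    rw [← Finset.card_pos, Finset.card_univ]
    omega
  have hprod1 : ∀ (b : ι → ℕ) (s : Finset ι), (∀ l, 1 ≤ b l) → (1 : ℝ) ≤ ∏ l ∈ s, (b l : ℝ) := by
    intro b s hb
    exact Finset.one_le_prod fun l _ => by exact_mod_cast hb l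
  obtain ⟨C, hC, h⟩ := hAD ι univ (fun i => d * (n i + 1 - k)) m δ' hS hδ0 (by
      intro i
      rw [hm]
      apply Nat.mul_le_mul_left
      have : n i ≤ ∑ i, n i := Finset.single_le_sum (fun _ _ => Nat.zero_le _) (mem_univ i)
      omega) Φ (by
      intro b hb
      rw [hΦ]
      exact Finset.one_le_prod fun l _ => one_le_pow₀ (by exact_mod_cast hb l)) (by
      intro b i ρ hb _ _ hρ hρb
      have hρ0 : (0 : ℝ) < ρ := by exact_mod_cast hρ
      rw [hΦ]
      simp only
      rw [← Finset.mul_prod_erase univ _ (mem_univ i),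
        ← Finset.mul_prod_erase univ (fun l => (b l : ℝ) ^ (d * (n l + 1 - k))) (mem_univ i)]
      rw [update_self]
      have e1 : ∏ x ∈ univ.erase i, ((update b i ρ x : ℕ) : ℝ) ^ (d * (n x + 1 - k)) =
          ∏ x ∈ univ.erase i, (b x : ℝ) ^ (d * (n x + 1 - k)) := by
        refine Finset.prod_congr rfl fun x hx => ?_
        rw [update_of_ne (Finset.ne_of_mem_erase hx)]
      rw [e1]
      apply le_of_eq
      rw [div_pow]
      field_simp)
      D (fun c => ∏ l : ι, ((bx K (n l + 1) c).card : ℝ)) hD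
  refine ⟨C, hC, ?_⟩
  intro b hb
  have key := h (fun b => ((FF c G b).card : ℝ)) (fun b => by positivity) (by
      intro b c' hbc
      have h1 : (FF c G b).card ≤ ∏ l : ι, (bx K (n l + 1) c').card := by
        rw [← Fintype.card_piFinset]
        apply Finset.card_le_card
        unfold FF
        refine (Finset.filter_subset _ _).trans ?_
        intro P hP
        rw [Fintype.mem_piFinset] at hP ⊢
        intro l
        have h2 := hP l
        rw [mem_bx] at h2 ⊢
        intro a
        refine ⟨(h2 a).1, fun φ => ((h2 a).2 φ).trans ?_⟩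
        exact_mod_cast hbc l (mem_univ l)
      exact_mod_cast h1) (by
      intro b i ρ q hb _ hmax hρ hρb hq hqρ
      have hρ0 : (0 : ℝ) < ρ := by exact_mod_cast hρ
      have hρ1 : (1 : ℝ) ≤ ρ := by exact_mod_cast hρ
      have hq0 : (0 : ℝ) < q := by linarith
      have hbq : ∀ l, (b l : ℝ) ≤ q * ρ := fun l =>
        le_trans (by exact_mod_cast hmax l (mem_univ l)) hqρ
      refine (hF b i ρ hb hρ hρb).trans ?_
      apply mul_le_mul_of_nonneg_left _ (by positivity)
      refine add_le_add_right ?_ _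
      have hΦ' : Φ (update b i ρ) = (ρ : ℝ) ^ (d * (n i + 1 - k)) *
          ∏ l ∈ univ.erase i, (b l : ℝ) ^ (d * (n l + 1 - k)) := by
        rw [hΦ]
        simp only
        rw [← Finset.mul_prod_erase univ _ (mem_univ i), update_self]
        congr 1
        refine Finset.prod_congr rfl fun x hx => ?_
        rw [update_of_ne (Finset.ne_of_mem_erase hx)]
      have hΦ0 : 0 ≤ Φ (update b i ρ) := by
        rw [hΦ]
        positivity
      have hP1 : (1 : ℝ) ≤ (∏ l, (b l : ℝ)) ^ δ' :=
        Real.one_le_rpow (hprod1 b univ hb) hδ0.le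
      have e1 : ∏ l ∈ univ.erase i, (b l : ℝ) ^ (d * (n l + 1)) =
          (∏ l ∈ univ.erase i, (b l : ℝ) ^ (d * (n l + 1 - k))) *
            ∏ l ∈ univ.erase i, (b l : ℝ) ^ (d * k) := by
        rw [← Finset.prod_mul_distrib]
        refine Finset.prod_congr rfl fun l _ => ?_
        rw [← pow_add]
        congr 1
        have := hkn l
        rw [← Nat.mul_add]
        congr 1
        omega
      have e2 : (ρ : ℝ) ^ (d * (n i + 1 - k * Fintype.card ι)) *
          ∏ l ∈ univ.erase i, (b l : ℝ) ^ (d * k) ≤ q ^ m * (ρ : ℝ) ^ (d * (n i + 1 - k)) := by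
        calc (ρ : ℝ) ^ (d * (n i + 1 - k * Fintype.card ι)) *
              ∏ l ∈ univ.erase i, (b l : ℝ) ^ (d * k)
            ≤ (ρ : ℝ) ^ (d * (n i + 1 - k * Fintype.card ι)) *
              ∏ l ∈ univ.erase i, (q * ρ) ^ (d * k) := by
              apply mul_le_mul_of_nonneg_left _ (by positivity)
              apply Finset.prod_le_prod (fun _ _ => by positivity)
              intro l _
              exact pow_le_pow_left₀ (by positivity) (hbq l) _
          _ = (ρ : ℝ) ^ (d * (n i + 1 - k * Fintype.card ι)) *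
              (q * ρ) ^ (d * (k * (Fintype.card ι - 1))) := by
              rw [Finset.prod_const, Finset.card_erase_of_mem (mem_univ i), Finset.card_univ,
                ← pow_mul, mul_assoc d]
          _ = q ^ (d * (k * (Fintype.card ι - 1))) *
              ((ρ : ℝ) ^ (d * (n i + 1 - k * Fintype.card ι) +
                d * (k * (Fintype.card ι - 1)))) := by
              rw [mul_pow, pow_add]
              ring
          _ = q ^ (d * (k * (Fintype.card ι - 1))) * (ρ : ℝ) ^ (d * (n i + 1 - k)) := by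
              congr 2
              rw [← Nat.mul_add]
              congr 1
              have := hn i
              omega
          _ ≤ q ^ m * (ρ : ℝ) ^ (d * (n i + 1 - k)) := by
              apply mul_le_mul_of_nonneg_right _ (by positivity)
              apply pow_le_pow_right₀ hq
              rw [hm]
              apply Nat.mul_le_mul_left
              omega
      calc D * (ρ : ℝ) ^ (d * (n i + 1 - k * Fintype.card ι)) *
            ∏ l ∈ univ.erase i, (b l : ℝ) ^ (d * (n l + 1))
          = D * ((∏ l ∈ univ.erase i, (b l : ℝ) ^ (d * (n l + 1 - k))) *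
            ((ρ : ℝ) ^ (d * (n i + 1 - k * Fintype.card ι)) *
              ∏ l ∈ univ.erase i, (b l : ℝ) ^ (d * k))) := by
            rw [e1]
            ring
        _ ≤ D * ((∏ l ∈ univ.erase i, (b l : ℝ) ^ (d * (n l + 1 - k))) *
            (q ^ m * (ρ : ℝ) ^ (d * (n i + 1 - k)))) := by gcongr
        _ = D * q ^ m * 1 * Φ (update b i ρ) := by
            rw [hΦ']
            ring
        _ ≤ D * q ^ m * (∏ l, (b l : ℝ)) ^ δ' * Φ (update b i ρ) := by gcongr) b hb
  have e5 : 2 * δ' = δ := by
    rw [hδ']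
    ring
  rw [e5] at key
  exact key

end Pool.Agent.Q35.SM
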