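import Mathlib
import Pool.Agent.Q35.SM.FB
import Pool.Agent.Q35.SM.Hom

set_option autoImplicit false

namespace Pool.Agent.Q35.SM

open Finset Function MvPolynomial
open Pool.Agent.Q35.MM (bx dg Pts fuj)

/-- The main theorem from the lemmas, with the additional information that for all `j` the `k` linear
forms in the `j`-th vector are linearly independent at all points where `g` does not vanish. -/
theorem main2 (hAD : Pool.Agent.Q35.MM.S_AD) (hT : S_T) (hD : S_D) (hE : S_E) (hF : S_F) (hN : S_N)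
    (hG : S_G) (hH : S_H) (K : Type) [Field K] [NumberField K] (ι : Type) [Fintype ι]
    [DecidableEq ι] (hι : 2 ≤ Fintype.card ι) (n : ι → ℕ) (k : ℕ) (hk : 1 ≤ k)
    (hn : ∀ i, (k * Fintype.card ι - 1) * (Fintype.card ι - 1) + k ≤ n i + 1)
    (c : Fin k → Cof K n) (hc : Smth c) :
    ∃ g : Pol K n, MH g ∧
      (∀ (F : Type) [Field F] [Algebra K F] (x : Vs F n), pv F g x ≠ 0 → ∀ j,
        LinearIndependent F fun (t : Fin k) (a : Fin (n j + 1)) =>
          ev F (c t) (update x j (Pi.single a 1))) ∧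
      (∃ x : Pts K n, (∀ t, ev K (c t) (fun i => (x i).rep) = 0) ∧
        pv K g (fun i => (x i).rep) ≠ 0) ∧
      ∀ l : ι → ℝ, (∀ i, 0 < l i) → ∀ ε : ℝ, 0 < ε → ∃ C : ℝ, ∀ T : ℝ, 1 ≤ T →
        {x : Pts K n | ((∀ t, ev K (c t) (fun i => (x i).rep) = 0) ∧
          pv K g (fun i => (x i).rep) ≠ 0) ∧ ∏ i, (x i).mulHeight ^ l i ≤ T}.Finite ∧
        (({x : Pts K n | ((∀ t, ev K (c t) (fun i => (x i).rep) = 0) ∧
          pv K g (fun i => (x i).rep) ≠ 0) ∧ ∏ i, (x i).mulHeight ^ l i ≤ T}.ncard : ℕ) : ℝ) ≤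
          C * T ^ (fuj n k l + ε) := by
  classical
  set s := Fintype.card ι with hs
  have hks1 : 1 ≤ k * s := Nat.mul_pos hk (by omega)
  have hnk : ∀ i, k * s ≤ n i + 1 := by
    intro i
    refine le_trans ?_ (hn i)
    obtain ⟨s', hs'⟩ : ∃ s', s = s' + 2 := ⟨s - 2, by omega⟩
    obtain ⟨k', rfl⟩ : ∃ k', k = k' + 1 := ⟨k - 1, by omega⟩
    rw [hs']
    have e1 : s' + 2 - 1 = s' + 1 := by omega
    have e2 : (k' + 1) * (s' + 2) - 1 = k' * s' + 2 * k' + s' + 1 := by
      have : (k' + 1) * (s' + 2) = k' * s' + 2 * k' + s' + 1 + 1 := by ring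
      omega
    rw [e1, e2]
    nlinarith [Nat.zero_le (k' * s'), Nat.zero_le (k' * s' * s'), Nat.zero_le (s' * s'),
      Nat.zero_le (k' * s'), Nat.zero_le k', Nat.zero_le s']
  have hkn : ∀ i, k ≤ n i := by
    intro i
    have h1 := hnk i
    have h2 : k * 2 ≤ k * s := Nat.mul_le_mul_left _ hι
    omega
  obtain ⟨G, hTw⟩ := hT K ι n k (k * s) c hι hks1
  -- the bottom of the tower
  have h0 : ∃ x : Vs K n, Opn K (G ∅) x := by
    by_contra hcon
    push Not at hcon
    obtain ⟨j, F, _, _, x, μ, B, hμ, hy, hBj, hBl, hind⟩ :=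
      hD K ι n k (k * s) c G hTw hι hks1 hnk hcon
    obtain ⟨z, hz0, hz1, hz2⟩ := hE K ι n k (k * s) c j F x μ B hks1 hnk hμ hy hBj hBl hind (by
      have := hn j
      rw [← hs]
      have e : (s - 1) * (k * s - 1) = (k * s - 1) * (s - 1) := Nat.mul_comm _ _
      omega)
    exact hF K ι n k c F z μ hμ hz0 hz1 hz2 hc
  obtain ⟨P, hP⟩ := hN K ι n k c G hι hk hnk hTw h0
  -- the form
  have hgI : ∀ I : Finset ι, ∃ g : Pol K n, MH g ∧ pv K g P ≠ 0 ∧
      (I ≠ univ → g ∈ G I) := by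
    intro I
    by_cases hI : I = univ
    · exact ⟨1, MH_one, by simp [pv], fun h => absurd hI h⟩
    · obtain ⟨g, hg, hg0⟩ := hP.2 I hI
      exact ⟨g, hTw.hom I g hg, hg0, fun _ => hg⟩
  choose g hgH hg0 hgG using hgI
  set g0 : Pol K n := ∏ I : Finset ι, g I with hg0def
  have hpv : ∀ x : Vs K n, pv K g0 x = ∏ I : Finset ι, pv K (g I) x := by
    intro x
    rw [hg0def]
    unfold pv
    rw [map_prod]
  have hmain : ∀ x : Vs K n, (∀ t, ev K (c t) x = 0) → pv K g0 x ≠ 0 → UU c G x := by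
    intro x hx hx0
    refine ⟨hx, fun I hI => ⟨g I, hgG I hI, ?_⟩⟩
    rw [hpv] at hx0
    exact Finset.prod_ne_zero_iff.mp hx0 I (mem_univ I)
  have hMH0 : MH g0 := MH_prod _ _ fun I _ => hgH I
  have hPg0 : pv K g0 P ≠ 0 := by
    rw [hpv]
    exact Finset.prod_ne_zero_iff.mpr fun I _ => hg0 I
  refine ⟨g0, hMH0, ?_, ?_, ?_⟩
  · intro F _ _ x hx j
    rw [← hTw.base j F x]
    have hI : univ.erase j ≠ univ := by
      intro h
      have := Finset.mem_univ j
      rw [← h] at this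
      exact Finset.notMem_erase j _ this
    refine ⟨g (univ.erase j), hgG _ hI, ?_⟩
    have h1 : pv F g0 x = ∏ I : Finset ι, pv F (g I) x := by
      rw [hg0def]
      unfold pv
      rw [map_prod]
    rw [h1] at hx
    exact Finset.prod_ne_zero_iff.mp hx _ (mem_univ _)
  · -- the point
    have hP0 : ∀ i, P i ≠ 0 := by
      intro i hi
      have h1 := hP.2 (univ.erase i) (by
        intro h
        have := Finset.mem_univ i
        rw [← h] at this
        exact Finset.notMem_erase i _ this)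
      obtain ⟨j, hj⟩ : ∃ j, j ≠ i := Fintype.exists_ne_of_one_lt_card (by omega) i
      have h2 := hP.2 (univ.erase j) (by
        intro h
        have := Finset.mem_univ j
        rw [← h] at this
        exact Finset.notMem_erase j _ this)
      rw [hTw.base j K P] at h2
      apply h2.ne_zero ⟨0, hk⟩
      funext a
      unfold ev
      refine Finset.sum_eq_zero fun b _ => ?_
      have h3 : ∏ i, update P j (Pi.single a 1) i (b i) = 0 := by
        refine Finset.prod_eq_zero (mem_univ i) ?_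
        rw [update_of_ne hj.symm, hi]
        rfl
      rw [h3, mul_zero]
    have h1 : ∀ i, ∃ a : K, a ≠ 0 ∧ a • P i = (Projectivization.mk K (P i) (hP0 i)).rep := by
      intro i
      obtain ⟨a, ha⟩ := Projectivization.exists_smul_eq_mk_rep K (P i) (hP0 i)
      exact ⟨a, Units.ne_zero a, by rw [← ha]; rfl⟩
    choose a ha0 ha using h1
    refine ⟨fun i => Projectivization.mk K (P i) (hP0 i), ?_, ?_⟩
    · intro t
      have h2 : (fun i => (Projectivization.mk K (P i) (hP0 i)).rep) = fun i => a i • P i := by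
        funext i
        exact (ha i).symm
      rw [h2, ev_smul, hP.1 t, mul_zero]
    · have h2 : (fun i => (Projectivization.mk K (P i) (hP0 i)).rep) = fun i => a i • P i := by
        funext i
        exact (ha i).symm
      obtain ⟨δ, hδ⟩ := hMH0
      rw [h2, pv_smul hδ]
      exact mul_ne_zero (Finset.prod_ne_zero_iff.mpr fun i _ => pow_ne_zero _ (ha0 i)) hPg0
  · intro l hl ε hε
    obtain ⟨C, hC⟩ := hH K ι n k (UU c G) hι hk hkn
      (fun a ha P hP => UU_smul c G hTw.hom a ha P hP)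
      (fun δ hδ => by
        obtain ⟨C, hC, h⟩ := fb hAD hG K ι n k c G hι hk hnk hTw δ hδ
        refine ⟨C, hC, fun b hb => ?_⟩
        convert h b hb using 3
        ext Q
        unfold FF
        simp only [Finset.mem_filter]) l hl ε hε
    refine ⟨C, fun T hT' => ?_⟩
    obtain ⟨h1, h2⟩ := hC T hT'
    have hsub : {x : Pts K n | ((∀ t, ev K (c t) (fun i => (x i).rep) = 0) ∧
          pv K g0 (fun i => (x i).rep) ≠ 0) ∧ ∏ i, (x i).mulHeight ^ l i ≤ T} ⊆
        {x : Pts K n | UU c G (fun i => (x i).rep) ∧ ∏ i, (x i).mulHeight ^ l i ≤ T} := by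
      rintro x ⟨⟨hx1, hx2⟩, hx3⟩
      exact ⟨hmain _ hx1 hx2, hx3⟩
    refine ⟨h1.subset hsub, le_trans ?_ h2⟩
    exact_mod_cast Set.ncard_le_ncard hsub h1

/-- The main theorem from the lemmas. -/
theorem main (hAD : Pool.Agent.Q35.MM.S_AD) (hT : S_T) (hD : S_D) (hE : S_E) (hF : S_F) (hN : S_N)
    (hG : S_G) (hH : S_H) (K : Type) [Field K] [NumberField K] (ι : Type) [Fintype ι]
    [DecidableEq ι] (hι : 2 ≤ Fintype.card ι) (n : ι → ℕ) (k : ℕ) (hk : 1 ≤ k)
    (hn : ∀ i, (k * Fintype.card ι - 1) * (Fintype.card ι - 1) + k ≤ n i + 1)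
    (c : Fin k → Cof K n) (hc : Smth c) :
    ∃ g : Pol K n, MH g ∧
      (∃ x : Pts K n, (∀ t, ev K (c t) (fun i => (x i).rep) = 0) ∧
        pv K g (fun i => (x i).rep) ≠ 0) ∧
      ∀ l : ι → ℝ, (∀ i, 0 < l i) → ∀ ε : ℝ, 0 < ε → ∃ C : ℝ, ∀ T : ℝ, 1 ≤ T →
        {x : Pts K n | ((∀ t, ev K (c t) (fun i => (x i).rep) = 0) ∧
          pv K g (fun i => (x i).rep) ≠ 0) ∧ ∏ i, (x i).mulHeight ^ l i ≤ T}.Finite ∧
        (({x : Pts K n | ((∀ t, ev K (c t) (fun i => (x i).rep) = 0) ∧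
          pv K g (fun i => (x i).rep) ≠ 0) ∧ ∏ i, (x i).mulHeight ^ l i ≤ T}.ncard : ℕ) : ℝ) ≤
          C * T ^ (fuj n k l + ε) := by
  obtain ⟨g, h1, -, h2, h3⟩ := main2 hAD hT hD hE hF hN hG hH K ι hι n k hk hn c hc
  exact ⟨g, h1, h2, h3⟩

end Pool.Agent.Q35.SM
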